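import Pool.Agent.helper82.CH.SpecA

/-!
# Project CH (MP_2e0e07_nt), row HCD: the number of the characters trivial on the Galois group
-/

set_option autoImplicit false

open NumberField Complex Pool.Agent.UN

namespace Pool.Agent.CH

theorem HCD_cyc {F M : Type} [Field F] [Field M] [Algebra F M] {m : ℕ} {z : M} (hm : 0 < m) (hz : IsPrimitiveRoot z m)
    (hadj : Algebra.adjoin F {z} = ⊤) : IsCyclotomicExtension {m} F M := by
  haveI : NeZero m := ⟨hm.ne'⟩
  refine (IsCyclotomicExtension.iff_singleton m F M).2 ⟨⟨z, hz⟩, fun x => ?_⟩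
  have h1 : x ∈ Algebra.adjoin F {z} := by
    rw [hadj]
    exact Algebra.mem_top
  refine Algebra.adjoin_mono ?_ h1
  rintro y rfl
  exact hz.pow_eq_one

theorem HCD_card (Q : Type) [CommGroup Q] [Finite Q] : Finite (Q →* ℂˣ) ∧ Nat.card (Q →* ℂˣ) = Nat.card Q := by
  haveI : NeZero (Monoid.exponent Q) := ⟨Monoid.exponent_ne_zero_of_finite⟩
  haveI : HasEnoughRootsOfUnity ℂ (Monoid.exponent Q) := by infer_instance
  have h := CommGroup.card_monoidHom_of_hasEnoughRootsOfUnity Q ℂ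
  refine ⟨Nat.finite_of_card_ne_zero ?_, h⟩
  rw [h]
  exact Nat.card_pos.ne'

theorem HCD : HCD_stmt := by
  intro F M _ _ _ _ _ m z hm hz hadj
  haveI : NeZero m := ⟨hm.ne'⟩
  haveI hcyc : IsCyclotomicExtension {m} F M := HCD_cyc hm hz hadj
  haveI : IsGalois F M := IsCyclotomicExtension.isGalois {m} F M
  haveI : FiniteDimensional F M := Module.Finite.of_restrictScalars_finite ℚ F M
  obtain ⟨κ, hκ⟩ : ∃ κ : (M ≃ₐ[F] M) →* (ZMod m)ˣ, κ = hz.autToPow F := ⟨_, rfl⟩
  have hinj : Function.Injective κ := by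
    rw [hκ]
    exact hz.autToPow_injective F
  have hspec : ∀ g : M ≃ₐ[F] M, g z = z ^ ((κ g : ZMod m)).val := by
    intro g
    rw [hκ]
    exact (hz.autToPow_spec F g).symm
  have hH : Nat.card κ.range = Module.finrank F M := by
    rw [← IsGalois.card_aut_eq_finrank F M]
    exact (Nat.card_congr (MonoidHom.ofInjective hinj).toEquiv).symm
  have hQ := HCD_card ((ZMod m)ˣ ⧸ κ.range)
  have h1 : Nat.card {ψ : DirichletCharacter ℂ m // ∀ (g : M ≃ₐ[F] M) (r : ℕ), g z = z ^ r → ψ ((r : ℕ) : ZMod m) = 1} ≤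
      Nat.card (((ZMod m)ˣ ⧸ κ.range) →* ℂˣ) := by
    haveI : Finite (((ZMod m)ˣ ⧸ κ.range) →* ℂˣ) := hQ.1
    have hk : ∀ ψ : {ψ : DirichletCharacter ℂ m // ∀ (g : M ≃ₐ[F] M) (r : ℕ), g z = z ^ r → ψ ((r : ℕ) : ZMod m) = 1},
        κ.range ≤ (MulChar.toUnitHom ψ.1).ker := by
      rintro ψ u ⟨g, rfl⟩
      rw [MonoidHom.mem_ker, Units.ext_iff, MulChar.coe_toUnitHom, Units.val_one]
      have h2 := ψ.2 g _ (hspec g)
      rwa [ZMod.natCast_zmod_val] at h2
    refine Nat.card_le_card_of_injective (fun ψ => QuotientGroup.lift κ.range (MulChar.toUnitHom ψ.1) (hk ψ)) ?_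
    intro ψ ψ' h
    apply Subtype.ext
    apply MulChar.ext
    intro a
    have h3 := DFunLike.congr_fun h (QuotientGroup.mk a)
    change QuotientGroup.lift κ.range (MulChar.toUnitHom ψ.1) (hk ψ) (QuotientGroup.mk a) =
      QuotientGroup.lift κ.range (MulChar.toUnitHom ψ'.1) (hk ψ') (QuotientGroup.mk a) at h3
    rw [QuotientGroup.lift_mk, QuotientGroup.lift_mk, Units.ext_iff, MulChar.coe_toUnitHom, MulChar.coe_toUnitHom] at h3
    exact h3
  have h5 := h1.trans (le_of_eq hQ.2)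
  have h4 : Nat.card ((ZMod m)ˣ ⧸ κ.range) * Nat.card κ.range = m.totient := by
    rw [← Subgroup.card_eq_card_quotient_mul_card_subgroup, Nat.card_eq_fintype_card, ZMod.card_units_eq_totient]
  rw [← h4, hH]
  exact Nat.mul_le_mul_right _ h5

end Pool.Agent.CH
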