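import Pool.Agent.helper58.CH.HCD

/-!
# Project CH (MP_2e0e07_nt), row SPL: complete splitting from trivial Frobenius elements
-/

set_option autoImplicit false

open NumberField Complex Pool.Agent.UN

namespace Pool.Agent.CH

/-- a finite field in which `x ^ p = x` has at most `p` elements -/
theorem SPL_card (k : Type) [Field k] [Finite k] (p : ℕ) (hp : 1 < p) (h : ∀ x : k, x ^ p = x) : Nat.card k ≤ p := by
  haveI := Fintype.ofFinite k
  have h1 : ∀ x : kˣ, x ^ (p - 1) = 1 := by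
    intro x
    have h2 : x ^ (p - 1) * x = 1 * x := by
      rw [← pow_succ, Nat.sub_add_cancel hp.le, one_mul]
      apply Units.ext
      rw [Units.val_pow_eq_pow_val]
      exact h _
    exact mul_right_cancel h2
  have h3 := (FiniteField.forall_pow_eq_one_iff k (p - 1)).1 h1
  have h4 := Nat.le_of_dvd (by omega) h3
  rw [Nat.card_eq_fintype_card]
  have h5 : 0 < Fintype.card k := Fintype.card_pos
  omega

theorem SPL_norm (F M : Type) [Field F] [NumberField F] [Field M] [NumberField M] [Algebra F M] (m : ℕ) (z : M)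
    (ψ : DirichletCharacter ℂ m) (F₁ : IntermediateField F M) (hm : 0 < m) (hz : IsPrimitiveRoot z m) (hadj : Algebra.adjoin F {z} = ⊤)
    (hT : Triv F ψ) (hF : ∀ (g : M ≃ₐ[F] M) (r : ℕ), g z = z ^ r → ψ ((r : ℕ) : ZMod m) = 1 → ∀ x ∈ F₁, g x = x)
    (p : ℕ) (hp : p.Prime) (hpm : ¬ p ∣ m) (I : Ideal (𝓞 F)) (hI : Ideal.absNorm I = p) (Q₁ : Ideal (𝓞 F₁)) [Q₁.IsPrime] [Q₁.LiesOver I] :
    Ideal.absNorm Q₁ ≤ p := by
  haveI : NeZero m := ⟨hm.ne'⟩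
  haveI hcyc : IsCyclotomicExtension {m} F M := HCD_cyc hm hz hadj
  haveI : IsGalois F M := IsCyclotomicExtension.isGalois {m} F M
  haveI : FiniteDimensional F M := Module.Finite.of_restrictScalars_finite ℚ F M
  have hI0 : I ≠ ⊥ := by
    intro h
    rw [h, Ideal.absNorm_bot] at hI
    exact hp.ne_zero hI.symm
  have hQ0 : Q₁ ≠ ⊥ := Ideal.ne_bot_of_liesOver_of_ne_bot hI0 Q₁
  haveI : Q₁.IsMaximal := Ideal.IsPrime.isMaximal inferInstance hQ0
  obtain ⟨Q, hQm, hQl⟩ := Ideal.exists_maximal_ideal_liesOver_of_isIntegral (S := 𝓞 M) Q₁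
  haveI : Q.IsPrime := hQm.isPrime
  haveI : Q.LiesOver I := Ideal.LiesOver.trans Q Q₁ I
  have hQb : Q ≠ ⊥ := Ideal.ne_bot_of_liesOver_of_ne_bot hI0 Q
  haveI : Finite (𝓞 M ⧸ Q) := Ideal.finiteQuotientOfFreeOfNeBot Q hQb
  obtain ⟨τ, hτ⟩ := IsArithFrobAt.exists_of_isInvariant (𝓞 F) (M ≃ₐ[F] M) Q
  have hcard : Nat.card (𝓞 F ⧸ Q.under (𝓞 F)) = p := by
    rw [← Ideal.over_def Q I, ← hI]
    rfl
  -- `p ∈ Q`, `m ∉ Q`
  have hpI : ((p : ℕ) : 𝓞 F) ∈ I := by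
    rw [← hI]
    exact Ideal.absNorm_mem I
  have hpQ : ((p : ℕ) : 𝓞 M) ∈ Q := by
    have h1 : algebraMap (𝓞 F) (𝓞 M) ((p : ℕ) : 𝓞 F) ∈ Q := by
      rw [← Ideal.mem_comap]
      have h2 : I = Q.comap (algebraMap (𝓞 F) (𝓞 M)) := Ideal.over_def Q I
      rw [← h2]
      exact hpI
    rwa [map_natCast] at h1
  have hcop : Nat.Coprime p m := (Nat.Prime.coprime_iff_not_dvd hp).2 hpm
  have hmQ : ((m : ℕ) : 𝓞 M) ∉ Q := by
    intro h
    apply hQm.ne_top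
    rw [Ideal.eq_top_iff_one]
    have h1 := Nat.isCoprime_iff_coprime.2 hcop
    obtain ⟨a, b, hab⟩ := h1
    have h2 : ((a : ℤ) : 𝓞 M) * ((p : ℕ) : 𝓞 M) + ((b : ℤ) : 𝓞 M) * ((m : ℕ) : 𝓞 M) = 1 := by
      have h3 := congrArg (fun t : ℤ => (t : 𝓞 M)) hab
      push_cast at h3
      exact h3
    rw [← h2]
    exact Q.add_mem (Q.mul_mem_left _ hpQ) (Q.mul_mem_left _ h)
  -- the value at `z`
  have hzi : IsIntegral ℤ z := hz.isIntegral hm
  obtain ⟨ζ, hζ⟩ : ∃ ζ : 𝓞 M, (ζ : M) = z := ⟨⟨z, hzi⟩, rfl⟩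
  have hζm : ζ ^ m = 1 := by
    apply RingOfIntegers.coe_injective
    rw [map_pow, map_one]
    show (ζ : M) ^ m = 1
    rw [hζ, hz.pow_eq_one]
  have h1 := hτ.apply_of_pow_eq_one hζm hmQ
  rw [hcard] at h1
  have hτz : τ z = z ^ p := by
    have h2 := congrArg (fun t : 𝓞 M => (t : M)) h1
    have h3 : (((MulSemiringAction.toAlgHom (𝓞 F) (𝓞 M) τ) ζ : 𝓞 M) : M) = τ (ζ : M) := rfl
    rw [← hζ, ← h3]
    exact h2.trans (map_pow (algebraMap (𝓞 M) M) ζ p)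
  -- `ψ p = 1`
  have hψ : ψ ((p : ℕ) : ZMod m) = 1 := by
    have h2 := hT I hI0 ?_
    · unfold nch at h2
      rwa [if_neg hI0, hI] at h2
    · rw [Ideal.eq_top_iff_one]
      have h1 := Nat.isCoprime_iff_coprime.2 hcop
      obtain ⟨a, b, hab⟩ := h1
      have h2 : ((a : ℤ) : 𝓞 F) * ((p : ℕ) : 𝓞 F) + ((b : ℤ) : 𝓞 F) * ((m : ℕ) : 𝓞 F) = 1 := by
        have h3 := congrArg (fun t : ℤ => (t : 𝓞 F)) hab
        push_cast at h3
        exact h3
      rw [← h2]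
      refine Ideal.add_mem _ (Ideal.mem_sup_left (I.mul_mem_left _ hpI)) (Ideal.mem_sup_right ?_)
      exact Ideal.mul_mem_left _ _ (Ideal.mem_span_singleton_self _)
  have hfix := hF τ p hτz hψ
  -- the residue field
  letI := Ideal.Quotient.field Q₁
  haveI : Finite (𝓞 F₁ ⧸ Q₁) := Ideal.finiteQuotientOfFreeOfNeBot Q₁ hQ0
  have hres : ∀ x : 𝓞 F₁ ⧸ Q₁, x ^ p = x := by
    intro x
    obtain ⟨y, rfl⟩ := Ideal.Quotient.mk_surjective x
    rw [← map_pow, Ideal.Quotient.eq]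
    have h2 := hτ (algebraMap (𝓞 F₁) (𝓞 M) y)
    rw [hcard] at h2
    have h3 : (MulSemiringAction.toAlgHom (𝓞 F) (𝓞 M) τ) (algebraMap (𝓞 F₁) (𝓞 M) y) = algebraMap (𝓞 F₁) (𝓞 M) y := by
      apply RingOfIntegers.coe_injective
      show τ ((y : F₁) : M) = ((y : F₁) : M)
      exact hfix _ (y : F₁).2
    rw [h3, ← map_pow, ← map_sub, ← Ideal.mem_comap] at h2
    have h4 : Q₁ = Q.comap (algebraMap (𝓞 F₁) (𝓞 M)) := Ideal.over_def Q Q₁
    rw [← h4] at h2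
    rw [← neg_sub]
    exact Q₁.neg_mem h2
  have h5 := SPL_card (𝓞 F₁ ⧸ Q₁) p hp.one_lt hres
  exact h5

theorem SPL : SPL_stmt := by
  intro F M _ _ _ _ _ m z ψ F₁ hm hz hadj hT hF
  refine ⟨m * (discr F₁).natAbs, Nat.mul_pos hm (Int.natAbs_pos.2 (discr_ne_zero F₁)), fun p hp hpD => ?_⟩
  have hpm : ¬ p ∣ m := fun h => hpD (h.mul_right _)
  have hpd : ¬ (p : ℤ) ∣ discr F₁ := fun h => hpD (Dvd.dvd.mul_left (Int.natCast_dvd.1 h) _)
  have hun := (not_dvd_discr_iff_forall_mem F₁ (𝓞 F₁) (Nat.prime_iff_prime_int.1 hp)).1 hpd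
  have hprime : ∀ I : Ideal (𝓞 F), Ideal.absNorm I = p → I ≠ ⊥ ∧ I.IsPrime := by
    intro I hI
    refine ⟨fun h => ?_, Ideal.isPrime_of_irreducible_absNorm (by rw [hI]; exact hp)⟩
    rw [h, Ideal.absNorm_bot] at hI
    exact hp.ne_zero hI.symm
  -- the primes over `I`
  have hover : ∀ I : Ideal (𝓞 F), Ideal.absNorm I = p → ∀ q : I.primesOver (𝓞 F₁),
      Ideal.absNorm q.1 = p ∧ q.1.inertiaDeg (𝓞 F) = 1 ∧ q.1.ramificationIdx (𝓞 F) = 1 := by
    intro I hI q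
    obtain ⟨hI0, hIp⟩ := hprime I hI
    haveI : q.1.IsPrime := q.2.1
    haveI : q.1.LiesOver I := q.2.2
    have h1 := SPL_norm F M m z ψ F₁ hm hz hadj hT hF p hp hpm I hI q.1
    have h2 : I.absNorm ^ q.1.inertiaDeg (𝓞 F) = q.1.absNorm := Ideal.absNorm_pow_inertiaDeg I q.1
    have h3 : 0 < q.1.inertiaDeg (𝓞 F) := Ideal.inertiaDeg_pos q.1 (𝓞 F)
    rw [hI] at h2
    have h4 : q.1.inertiaDeg (𝓞 F) = 1 := by
      by_contra h
      have h5 : 2 ≤ q.1.inertiaDeg (𝓞 F) := by omega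
      have h6 : p ^ 2 ≤ p ^ q.1.inertiaDeg (𝓞 F) := Nat.pow_le_pow_right hp.pos h5
      have h7 : 1 < p := hp.one_lt
      nlinarith
    refine ⟨by rw [← h2, h4, pow_one], h4, ?_⟩
    have hpI : ((p : ℕ) : 𝓞 F) ∈ I := by
      rw [← hI]
      exact Ideal.absNorm_mem I
    have hpq : (((p : ℕ) : ℤ) : 𝓞 F₁) ∈ q.1 := by
      have h8 : algebraMap (𝓞 F) (𝓞 F₁) ((p : ℕ) : 𝓞 F) ∈ q.1 := by
        rw [← Ideal.mem_comap]
        have h9 : I = q.1.comap (algebraMap (𝓞 F) (𝓞 F₁)) := Ideal.over_def q.1 I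
        rw [← h9]
        exact hpI
      rw [map_natCast] at h8
      rwa [Int.cast_natCast]
    haveI := hun q.1 inferInstance hpq
    have h10 : q.1.ramificationIdx ℤ = 1 := Ideal.ramificationIdx_eq_one q.1 ℤ
    have h11 : q.1.ramificationIdx ℤ = I.ramificationIdx ℤ * q.1.ramificationIdx (𝓞 F) := Ideal.ramificationIdx_tower I q.1
    rw [h10] at h11
    exact Nat.eq_one_of_mul_eq_one_left h11.symm
  have hcount : ∀ I : Ideal (𝓞 F), Ideal.absNorm I = p → Finite (I.primesOver (𝓞 F₁)) ∧ Nat.card (I.primesOver (𝓞 F₁)) = Module.finrank F F₁ := by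
    intro I hI
    obtain ⟨hI0, hIp⟩ := hprime I hI
    haveI : I.IsMaximal := hIp.isMaximal hI0
    have h1 := Ideal.sum_ramification_inertia_eq_finrank I (𝓞 F₁)
    refine ⟨inferInstance, ?_⟩
    have h2 : ∀ q : I.primesOver (𝓞 F₁), q.1.ramificationIdx (𝓞 F) * q.1.inertiaDeg (𝓞 F) = 1 := by
      intro q
      obtain ⟨-, h3, h4⟩ := hover I hI q
      rw [h3, h4]
    rw [Finset.sum_congr rfl fun q _ => h2 q, Finset.sum_const, smul_eq_mul, mul_one, Finset.card_univ] at h1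
    rw [Nat.card_eq_fintype_card, h1]
    exact (IsFractionRing.finrank_eq (𝓞 F) F (𝓞 F₁) F₁).symm
  haveI hfF : Finite {I : Ideal (𝓞 F) // Ideal.absNorm I = p} := (Ideal.finite_setOfPred_absNorm_eq (S := 𝓞 F) p).to_subtype
  haveI hfF₁ : Finite {I : Ideal (𝓞 F₁) // Ideal.absNorm I = p} := (Ideal.finite_setOfPred_absNorm_eq (S := 𝓞 F₁) p).to_subtype
  haveI := Fintype.ofFinite {I : Ideal (𝓞 F) // Ideal.absNorm I = p}
  haveI : ∀ I : {I : Ideal (𝓞 F) // Ideal.absNorm I = p}, Finite (I.1.primesOver (𝓞 F₁)) := fun I => (hcount I.1 I.2).1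
  have hsig : Nat.card (Σ I : {I : Ideal (𝓞 F) // Ideal.absNorm I = p}, I.1.primesOver (𝓞 F₁)) = Module.finrank F F₁ * nd F p := by
    rw [Nat.card_sigma, Finset.sum_congr rfl fun I _ => (hcount I.1 I.2).2, Finset.sum_const, smul_eq_mul, Finset.card_univ, mul_comm]
    unfold nd
    rw [Nat.card_eq_fintype_card]
  rw [← hsig]
  unfold nd
  refine Nat.card_le_card_of_injective (fun x => ⟨x.2.1, (hover x.1.1 x.1.2 x.2).1⟩) ?_
  rintro ⟨⟨I, hI⟩, ⟨q, hq⟩⟩ ⟨⟨I', hI'⟩, ⟨q', hq'⟩⟩ h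
  have h1 : q = q' := congrArg Subtype.val h
  subst h1
  have h2 : I = I' := hq.2.over.trans hq'.2.over.symm
  subst h2
  rfl

end Pool.Agent.CH
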